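import Pool.Agent.helper29.PQ.Spec

namespace Pool.Agent.helper35.PQ

open Finset Pool.Agent.helper29.PQ

theorem B0_step (s : ℝ) (hs : 0 < s) (a : ℝ) (ha : 1 ≤ a) :
    (a + 1) ^ (-(1 + s)) ≤ (1 / s) * (a ^ (-s) - (a + 1) ^ (-s)) := by
  have ha0 : 0 < a := by linarith
  have hb0 : 0 < a + 1 := by linarith
  have h1 : (a + 1) ^ (-(1 + s)) = (a + 1) ^ (-s) * (a + 1)⁻¹ := by
    rw [show -(1 + s) = -s + -1 by ring, Real.rpow_add hb0, Real.rpow_neg_one]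
  have h2 : a ^ (-s) = (a + 1) ^ (-s) * ((a + 1) / a) ^ s := by
    rw [Real.div_rpow hb0.le ha0.le, Real.rpow_neg hb0.le, Real.rpow_neg ha0.le]
    have : (a + 1) ^ s ≠ 0 := (Real.rpow_pos_of_pos hb0 s).ne'
    field_simp
  have hq : 0 < (a + 1) / a := by positivity
  have h3 : 1 + s * (a + 1)⁻¹ ≤ ((a + 1) / a) ^ s := by
    rw [Real.rpow_def_of_pos hq]
    have hlog : (a + 1)⁻¹ ≤ Real.log ((a + 1) / a) := by
      have := Real.one_sub_inv_le_log_of_pos hq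
      have h4 : 1 - ((a + 1) / a)⁻¹ = (a + 1)⁻¹ := by
        field_simp
        ring
      linarith
    have h5 := Real.add_one_le_exp (Real.log ((a + 1) / a) * s)
    nlinarith
  have h6 : 0 < (a + 1) ^ (-s) := Real.rpow_pos_of_pos hb0 _
  rw [h1, h2]
  have h7 : (a + 1) ^ (-s) * (s * (a + 1)⁻¹) ≤
      (a + 1) ^ (-s) * ((a + 1) / a) ^ s - (a + 1) ^ (-s) := by
    nlinarith
  rw [one_div, le_inv_mul_iff₀ hs]
  linarith

theorem B0_ind (s : ℝ) (hs : 0 < s) (w k : ℕ) (hw : 1 ≤ w) :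
    ∑ n ∈ Ioc w (w + k), (n : ℝ) ^ (-(1 + s)) ≤
      (1 / s) * ((w : ℝ) ^ (-s) - ((w + k : ℕ) : ℝ) ^ (-s)) := by
  induction k with
  | zero => simp
  | succ k ih =>
    rw [← add_assoc, Finset.sum_Ioc_succ_top (by omega)]
    have h := B0_step s hs ((w + k : ℕ) : ℝ) (by exact_mod_cast (by omega : 1 ≤ w + k))
    have hc : ((w + k + 1 : ℕ) : ℝ) = ((w + k : ℕ) : ℝ) + 1 := by push_cast; ring
    rw [hc]
    have e : (1 / s) * ((w : ℝ) ^ (-s) - (((w + k : ℕ) : ℝ) + 1) ^ (-s)) =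
        (1 / s) * ((w : ℝ) ^ (-s) - ((w + k : ℕ) : ℝ) ^ (-s)) +
        (1 / s) * (((w + k : ℕ) : ℝ) ^ (-s) - (((w + k : ℕ) : ℝ) + 1) ^ (-s)) := by ring
    rw [e]
    exact add_le_add ih h

theorem B0 : B0_stmt := by
  intro s hs w Z hw
  have hpos : 0 ≤ (1 / s) * (w : ℝ) ^ (-s) := by positivity
  rcases le_or_gt w Z with h | h
  · obtain ⟨k, rfl⟩ := Nat.exists_eq_add_of_le h
    refine (B0_ind s hs w k hw).trans ?_
    have h1 : 0 ≤ ((w + k : ℕ) : ℝ) ^ (-s) := by positivity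
    have h2 : 0 ≤ 1 / s := by positivity
    nlinarith
  · rw [Finset.Ioc_eq_empty_of_le h.le, Finset.sum_empty]
    exact hpos

end Pool.Agent.helper35.PQ
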